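import Mathlib

/-!
# External and self private neighbours in trees: the constant is 4/5 (MP_0d27c8_co)
-/

namespace Pool.Agent.Results.MP_0d27c8_co.FourFifths

variable {V : Type}

/-- the number of external private neighbours plus the number of self private neighbours with
respect to `U` -/
noncomputable def priv (G : SimpleGraph V) (U : Set V) : ℕ :=
  {w | w ∉ U ∧ {u ∈ U | G.Adj w u}.ncard = 1}.ncard +
    {w | w ∈ U ∧ {u ∈ U | G.Adj w u} = ∅}.ncard

/-- `ESPN(G)`: the maximum of `priv G U` over all vertex sets `U` -/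
noncomputable def ESPN (G : SimpleGraph V) : ℕ := sSup (Set.range (priv G))

/-! ### Decomposition of rooted trees -/

section decomposition

open Classical in
/-- an induction principle for rooted subtrees -/
theorem rooted_induction (G : SimpleGraph V) (hG : G.IsAcyclic) (Q : Finset V → V → Prop)
    (base : ∀ r, Q {r} r)
    (step : ∀ (A₁ A₂ : Finset V) (r c : V), Disjoint A₁ A₂ → r ∈ A₁ → c ∈ A₂ → G.Adj r c →
      (∀ u ∈ A₁, ∀ v ∈ A₂, G.Adj u v → u = r ∧ v = c) → Q A₁ r → Q A₂ c → Q (A₁ ∪ A₂) r) :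
    ∀ (n : ℕ) (A : Finset V) (r : V), A.card = n → r ∈ A →
      (∀ v ∈ A, Relation.ReflTransGen (fun x y => G.Adj x y ∧ x ∈ A ∧ y ∈ A) r v) → Q A r := by
  intro n
  induction n using Nat.strong_induction_on with
  | _ n ih =>
  intro A r hn hr hA
  by_cases h1 : A = {r}
  · rw [h1]
    exact base r
  obtain ⟨v, hv, hvr⟩ : ∃ v ∈ A, v ≠ r := by
    by_contra h
    push Not at h
    apply h1
    ext x
    rw [Finset.mem_singleton]
    exact ⟨h x, fun hx => hx ▸ hr⟩
  obtain ⟨c, ⟨hrc, -, hc⟩, -⟩ := (hA v hv).cases_head.resolve_left (Ne.symm hvr)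
  let R : V → V → Prop := fun x y => G.Adj x y ∧ x ∈ A ∧ y ∈ A ∧ s(x, y) ≠ s(r, c)
  let A₂ := A.filter fun x => Relation.ReflTransGen R c x
  let A₁ := A.filter fun x => ¬ Relation.ReflTransGen R c x
  have hbr : G.IsBridge s(r, c) := SimpleGraph.isAcyclic_iff_forall_adj_isBridge.1 hG hrc
  have hrA₂ : ¬ Relation.ReflTransGen R c r := by
    intro h
    rw [SimpleGraph.isBridge_iff] at hbr
    apply hbr
    have h2 : ∀ x, Relation.ReflTransGen R c x →
        (G.deleteEdges {s(r, c)}).Reachable c x := by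
      intro x hx
      induction hx with
      | refl => exact SimpleGraph.Reachable.refl _
      | tail _ h3 ih =>
        refine ih.trans (SimpleGraph.Adj.reachable ?_)
        rw [SimpleGraph.deleteEdges_adj]
        exact ⟨h3.1, fun h4 => h3.2.2.2 h4⟩
    exact (h2 r h).symm
  have hr1 : r ∈ A₁ := by simp [A₁, hr, hrA₂]
  have hc2 : c ∈ A₂ := by simp [A₂, hc, Relation.ReflTransGen.refl]
  have hdisj : Disjoint A₁ A₂ := by
    rw [Finset.disjoint_left]
    intro x h2 h3
    exact (Finset.mem_filter.1 h2).2 (Finset.mem_filter.1 h3).2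
  have hunion : A₁ ∪ A₂ = A := by
    ext x
    simp only [A₁, A₂, Finset.mem_union, Finset.mem_filter]
    tauto
  have hedge : ∀ u ∈ A₁, ∀ w ∈ A₂, G.Adj u w → u = r ∧ w = c := by
    intro u hu w hw huw
    obtain ⟨hu1, hu2⟩ := Finset.mem_filter.1 hu
    obtain ⟨hw1, hw2⟩ := Finset.mem_filter.1 hw
    by_cases h2 : s(w, u) = s(r, c)
    · rw [Sym2.eq_iff] at h2
      rcases h2 with ⟨h3, h4⟩ | ⟨h3, h4⟩
      · exfalso
        rw [h3] at hw2
        exact hrA₂ hw2
      · exact ⟨h4, h3⟩
    · exact absurd (hw2.tail ⟨huw.symm, hw1, hu1, h2⟩) hu2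
  have hcard : A₁.card + A₂.card = A.card := by
    rw [← Finset.card_union_of_disjoint hdisj, hunion]
  have hpos1 : 0 < A₁.card := Finset.card_pos.2 ⟨r, hr1⟩
  have hpos2 : 0 < A₂.card := Finset.card_pos.2 ⟨c, hc2⟩
  rw [← hunion]
  refine step A₁ A₂ r c hdisj hr1 hc2 hrc hedge ?_ ?_
  · refine ih A₁.card (by omega) A₁ r rfl hr1 fun x hx => ?_
    have h2 : ∀ x, Relation.ReflTransGen (fun x y => G.Adj x y ∧ x ∈ A ∧ y ∈ A) r x → x ∈ A₁ →
        Relation.ReflTransGen (fun x y => G.Adj x y ∧ x ∈ A₁ ∧ y ∈ A₁) r x := by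
      intro x hx
      induction hx with
      | refl => intro _; exact Relation.ReflTransGen.refl
      | @tail u w _ h3 ih2 =>
        intro hw
        by_cases hu : u ∈ A₁
        · exact (ih2 hu).tail ⟨h3.1, hu, hw⟩
        · have hu2 : u ∈ A₂ := by
            have := h3.2.1
            rw [← hunion, Finset.mem_union] at this
            exact this.resolve_left hu
          have := (hedge w hw u hu2 h3.1.symm).1
          rw [this]
    exact h2 x (hA x (Finset.mem_filter.1 hx).1) hx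
  · refine ih A₂.card (by omega) A₂ c rfl hc2 fun x hx => ?_
    have h2 : ∀ x, Relation.ReflTransGen R c x → x ∈ A₂ ∧
        Relation.ReflTransGen (fun x y => G.Adj x y ∧ x ∈ A₂ ∧ y ∈ A₂) c x := by
      intro x hx
      induction hx with
      | refl => exact ⟨hc2, Relation.ReflTransGen.refl⟩
      | @tail u w h4 h3 ih2 =>
        have hw : w ∈ A₂ := Finset.mem_filter.2 ⟨h3.2.2.1, h4.tail h3⟩
        exact ⟨hw, ih2.2.tail ⟨h3.1, ih2.1, hw⟩⟩
    exact (h2 x (Finset.mem_filter.1 hx).2).2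

end decomposition

/-! ### Dynamic programming -/

/-- states of the root: outside `U` with 0, 1, at least 2 neighbours in `U`; inside `U` with no
neighbour in `U` -/
inductive S
  | o0 | o1 | o2 | i0
  deriving DecidableEq

section dp

open Classical in
/-- number of neighbours of `w` in `U` -/
noncomputable def cnt (G : SimpleGraph V) (U : Finset V) (w : V) : ℕ :=
  (U.filter fun u => G.Adj w u).card

/-- `w` is an external or a self private neighbour -/
def Good (G : SimpleGraph V) (U : Finset V) (w : V) : Prop :=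
  (w ∉ U ∧ cnt G U w = 1) ∨ (w ∈ U ∧ cnt G U w = 0)

/-- the state of the root -/
def St (G : SimpleGraph V) (U : Finset V) (r : V) : S → Prop
  | S.o0 => r ∉ U ∧ cnt G U r = 0
  | S.o1 => r ∉ U ∧ cnt G U r = 1
  | S.o2 => r ∉ U ∧ 2 ≤ cnt G U r
  | S.i0 => r ∈ U ∧ cnt G U r = 0

open Classical in
/-- some `U ⊆ A` gives the root `r` the state `s` and many good vertices different from `r` -/
def HasState (G : SimpleGraph V) (A : Finset V) (r : V) (s : S) (x : ℤ) : Prop :=
  ∃ U ⊆ A, St G U r s ∧ x ≤ 5 * (((A.erase r).filter fun w => Good G U w).card : ℤ) - 4 * A.card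

/-- combination of the states of the root and of a child -/
def jn : S → S → Option (S × ℤ)
  | S.o0, S.o0 => some (S.o0, 0)
  | S.o0, S.o1 => some (S.o0, 5)
  | S.o0, S.o2 => some (S.o0, 0)
  | S.o0, S.i0 => some (S.o1, 5)
  | S.o1, S.o0 => some (S.o1, 0)
  | S.o1, S.o1 => some (S.o1, 5)
  | S.o1, S.o2 => some (S.o1, 0)
  | S.o1, S.i0 => some (S.o2, 5)
  | S.o2, S.o0 => some (S.o2, 0)
  | S.o2, S.o1 => some (S.o2, 5)
  | S.o2, S.o2 => some (S.o2, 0)
  | S.o2, S.i0 => some (S.o2, 5)
  | S.i0, S.o0 => some (S.i0, 5)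
  | S.i0, S.o1 => some (S.i0, 0)
  | S.i0, S.o2 => some (S.i0, 0)
  | S.i0, S.i0 => none

open Classical in
lemma join_state (G : SimpleGraph V) (A₁ A₂ : Finset V) (r c : V) (hd : Disjoint A₁ A₂)
    (hr : r ∈ A₁) (hc : c ∈ A₂) (hrc : G.Adj r c)
    (hedge : ∀ u ∈ A₁, ∀ v ∈ A₂, G.Adj u v → u = r ∧ v = c) {s t s' : S} {x y b : ℤ}
    (h1 : HasState G A₁ r s x) (h2 : HasState G A₂ c t y) (hj : jn s t = some (s', b)) :
    HasState G (A₁ ∪ A₂) r s' (x + y + b) := by
  obtain ⟨U₁, hU₁, hs, hx⟩ := h1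
  obtain ⟨U₂, hU₂, ht, hy⟩ := h2
  have hd' : ∀ w, w ∈ A₁ → w ∉ A₂ := fun w hw => Finset.disjoint_left.1 hd hw
  have hUd : Disjoint U₁ U₂ := Disjoint.mono hU₁ hU₂ hd
  have hcnt : ∀ w, cnt G (U₁ ∪ U₂) w = cnt G U₁ w + cnt G U₂ w := by
    intro w
    unfold cnt
    rw [Finset.filter_union, Finset.card_union_of_disjoint (Finset.disjoint_filter_filter hUd)]
  have hc1 : ∀ w ∈ A₁, w ≠ r → cnt G U₂ w = 0 := by
    intro w hw hwr
    unfold cnt
    rw [Finset.card_eq_zero, Finset.filter_eq_empty_iff]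
    intro u hu hwu
    exact hwr (hedge w hw u (hU₂ hu) hwu).1
  have hc2 : ∀ w ∈ A₂, w ≠ c → cnt G U₁ w = 0 := by
    intro w hw hwc
    unfold cnt
    rw [Finset.card_eq_zero, Finset.filter_eq_empty_iff]
    intro u hu hwu
    exact hwc (hedge u (hU₁ hu) w hw hwu.symm).2
  have hcr : cnt G U₂ r = if c ∈ U₂ then 1 else 0 := by
    unfold cnt
    have : U₂.filter (fun u => G.Adj r u) = U₂.filter (fun u => u = c) := by
      ext u
      simp only [Finset.mem_filter, and_congr_right_iff]
      intro hu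
      exact ⟨fun h => (hedge r hr u (hU₂ hu) h).2, fun h => h ▸ hrc⟩
    rw [this]
    by_cases h : c ∈ U₂
    · rw [if_pos h, Finset.card_eq_one]
      refine ⟨c, ?_⟩
      ext u
      simp only [Finset.mem_filter, Finset.mem_singleton]
      exact ⟨fun h' => h'.2, fun h' => ⟨h' ▸ h, h'⟩⟩
    · rw [if_neg h, Finset.card_eq_zero, Finset.filter_eq_empty_iff]
      intro u hu huc
      exact h (huc ▸ hu)
  have hcc : cnt G U₁ c = if r ∈ U₁ then 1 else 0 := by
    unfold cnt
    have : U₁.filter (fun u => G.Adj c u) = U₁.filter (fun u => u = r) := by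
      ext u
      simp only [Finset.mem_filter, and_congr_right_iff]
      intro hu
      exact ⟨fun h => (hedge u (hU₁ hu) c hc h.symm).1, fun h => h ▸ hrc.symm⟩
    rw [this]
    by_cases h : r ∈ U₁
    · rw [if_pos h, Finset.card_eq_one]
      refine ⟨r, ?_⟩
      ext u
      simp only [Finset.mem_filter, Finset.mem_singleton]
      exact ⟨fun h' => h'.2, fun h' => ⟨h' ▸ h, h'⟩⟩
    · rw [if_neg h, Finset.card_eq_zero, Finset.filter_eq_empty_iff]
      intro u hu huc
      exact h (huc ▸ hu)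
  have hm1 : ∀ w ∈ A₁, (w ∈ U₁ ∪ U₂ ↔ w ∈ U₁) := by
    intro w hw
    rw [Finset.mem_union]
    exact ⟨fun h => h.resolve_right fun h' => hd' w hw (hU₂ h'), Or.inl⟩
  have hm2 : ∀ w ∈ A₂, (w ∈ U₁ ∪ U₂ ↔ w ∈ U₂) := by
    intro w hw
    rw [Finset.mem_union]
    exact ⟨fun h => h.resolve_left fun h' => hd' w (hU₁ h') hw, Or.inr⟩
  have hg1 : ∀ w ∈ A₁, w ≠ r → (Good G (U₁ ∪ U₂) w ↔ Good G U₁ w) := by
    intro w hw hwr
    unfold Good
    rw [hm1 w hw, hcnt, hc1 w hw hwr, add_zero]
  have hg2 : ∀ w ∈ A₂, w ≠ c → (Good G (U₁ ∪ U₂) w ↔ Good G U₂ w) := by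
    intro w hw hwr
    unfold Good
    rw [hm2 w hw, hcnt, hc2 w hw hwr, zero_add]
  have hgc : Good G (U₁ ∪ U₂) c ↔
      ((c ∉ U₂ ∧ cnt G U₂ c + (if r ∈ U₁ then 1 else 0) = 1) ∨
        (c ∈ U₂ ∧ cnt G U₂ c + (if r ∈ U₁ then 1 else 0) = 0)) := by
    unfold Good
    rw [hm2 c hc, hcnt, hcc, add_comm]
  have hcard : (A₁ ∪ A₂).card = A₁.card + A₂.card := Finset.card_union_of_disjoint hd
  have hrc' : r ≠ c := hrc.ne
  have hset : ((A₁ ∪ A₂).erase r).filter (fun w => Good G (U₁ ∪ U₂) w) =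
      ((A₁.erase r).filter (fun w => Good G U₁ w) ∪ (A₂.erase c).filter (fun w => Good G U₂ w)) ∪
        (({c} : Finset V).filter (fun w => Good G (U₁ ∪ U₂) w)) := by
    ext w
    simp only [Finset.mem_filter, Finset.mem_erase, Finset.mem_union, Finset.mem_singleton]
    constructor
    · rintro ⟨⟨h3, h4 | h4⟩, h5⟩
      · exact Or.inl (Or.inl ⟨⟨h3, h4⟩, (hg1 w h4 h3).1 h5⟩)
      · by_cases h6 : w = c
        · exact Or.inr ⟨h6, h5⟩
        · exact Or.inl (Or.inr ⟨⟨h6, h4⟩, (hg2 w h4 h6).1 h5⟩)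
    · rintro ((⟨⟨h3, h4⟩, h5⟩ | ⟨⟨h3, h4⟩, h5⟩) | ⟨h3, h5⟩)
      · exact ⟨⟨h3, Or.inl h4⟩, (hg1 w h4 h3).2 h5⟩
      · refine ⟨⟨?_, Or.inr h4⟩, (hg2 w h4 h3).2 h5⟩
        rintro rfl
        exact hd' w hr h4
      · subst h3
        exact ⟨⟨hrc'.symm, Or.inr hc⟩, h5⟩
  have hcard2 : (((A₁ ∪ A₂).erase r).filter (fun w => Good G (U₁ ∪ U₂) w)).card =
      ((A₁.erase r).filter (fun w => Good G U₁ w)).card +
        ((A₂.erase c).filter (fun w => Good G U₂ w)).card +
        (if Good G (U₁ ∪ U₂) c then 1 else 0) := by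
    rw [hset, Finset.card_union_of_disjoint, Finset.card_union_of_disjoint, Finset.filter_singleton]
    · split_ifs <;> simp
    · rw [Finset.disjoint_left]
      intro w h3 h4
      exact hd' w (Finset.mem_of_mem_erase (Finset.mem_filter.1 h3).1)
        (Finset.mem_of_mem_erase (Finset.mem_filter.1 h4).1)
    · rw [Finset.disjoint_left]
      intro w h3 h4
      have h5 : w = c := by simpa using (Finset.mem_filter.1 h4).1
      subst h5
      rcases Finset.mem_union.1 h3 with h6 | h6
      · exact hd' w (Finset.mem_of_mem_erase (Finset.mem_filter.1 h6).1) hc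
      · exact (Finset.mem_erase.1 (Finset.mem_filter.1 h6).1).1 rfl
  refine ⟨U₁ ∪ U₂, Finset.union_subset_union hU₁ hU₂, ?_, ?_⟩
  · have hmr := hm1 r hr
    cases s <;> cases t <;> simp only [jn, Option.some.injEq, Prod.mk.injEq, reduceCtorEq] at hj <;>
      (try obtain ⟨rfl, -⟩ := hj) <;> simp only [St] at hs ht ⊢ <;> rw [hmr, hcnt, hcr] <;>
      simp only [hs, ht, not_true_eq_false, not_false_eq_true, if_true, if_false, true_and] <;>
      omega
  · rw [hcard2, hcard]
    have hb : b ≤ 5 * ((if Good G (U₁ ∪ U₂) c then 1 else 0 : ℕ) : ℤ) := by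
      cases s <;> cases t <;> simp only [jn, Option.some.injEq, Prod.mk.injEq, reduceCtorEq] at hj <;>
        (try obtain ⟨-, rfl⟩ := hj) <;> simp only [St] at hs ht <;>
        first
        | (split_ifs <;> norm_num; done)
        | (rw [if_pos]
           · norm_num
           · rw [hgc]
             simp [hs, ht])
    push_cast at hb ⊢
    linarith

/-- the seven types of rooted trees -/
def P : List (List (S × ℤ)) :=
  [[(S.o0, -4), (S.i0, -4)], [(S.o1, -3), (S.i0, -3)], [(S.o0, -2), (S.o1, -2)],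
    [(S.o2, -2), (S.i0, -2)], [(S.o1, -1)], [(S.o0, 0)], [(S.o2, 0)]]

/-- combination of types -/
def comb (p q : List (S × ℤ)) : List (S × ℤ) :=
  p.flatMap fun a => q.filterMap fun b => (jn a.1 b.1).map fun c => (c.1, a.2 + b.2 + c.2)

lemma closed : ∀ p ∈ P, ∀ q ∈ P, ∃ w ∈ P, ∀ a ∈ w, ∃ b ∈ comb p q, b.1 = a.1 ∧ a.2 ≤ b.2 := by
  decide

/-- every rooted tree has one of the seven types -/
theorem has_type (G : SimpleGraph V) (hG : G.IsAcyclic) (A : Finset V) (r : V) (hr : r ∈ A)
    (hA : ∀ v ∈ A, Relation.ReflTransGen (fun x y => G.Adj x y ∧ x ∈ A ∧ y ∈ A) r v) :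
    ∃ p ∈ P, ∀ a ∈ p, HasState G A r a.1 a.2 := by
  classical
  refine rooted_induction G hG (fun A r => ∃ p ∈ P, ∀ a ∈ p, HasState G A r a.1 a.2) ?_ ?_
    A.card A r rfl hr hA
  · intro r
    refine ⟨[(S.o0, -4), (S.i0, -4)], by simp [P], ?_⟩
    intro a ha
    simp only [List.mem_cons, List.not_mem_nil, or_false] at ha
    rcases ha with rfl | rfl
    · refine ⟨∅, by simp, ⟨by simp, by simp [cnt]⟩, ?_⟩
      simp
    · refine ⟨{r}, by simp, ⟨by simp, ?_⟩, ?_⟩
      · unfold cnt
        rw [Finset.card_eq_zero, Finset.filter_eq_empty_iff]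
        intro u hu
        rw [Finset.mem_singleton] at hu
        subst hu
        exact G.irrefl
      · simp
  · rintro A₁ A₂ r c hd hr hc hrc hedge ⟨p, hp, hp'⟩ ⟨q, hq, hq'⟩
    obtain ⟨w, hw, hw'⟩ := closed p hp q hq
    refine ⟨w, hw, fun a ha => ?_⟩
    obtain ⟨b, hb, hb1, hb2⟩ := hw' a ha
    simp only [comb, List.mem_flatMap, List.mem_filterMap, Option.map_eq_some_iff] at hb
    obtain ⟨a₁, ha₁, a₂, ha₂, ⟨s', z⟩, hj, rfl⟩ := hb
    obtain ⟨U, hU, hs, hx⟩ := join_state G A₁ A₂ r c hd hr hc hrc hedge (hp' a₁ ha₁) (hq' a₂ ha₂) hj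
    refine ⟨U, hU, ?_, ?_⟩
    · rw [← hb1]
      exact hs
    · exact le_trans hb2 hx

open Classical in
/-- the lower bound -/
theorem lower [Fintype V] (G : SimpleGraph V) (hG : G.IsTree) :
    ∃ U : Finset V, 4 * Fintype.card V ≤ 5 * (Finset.univ.filter fun w => Good G U w).card := by
  obtain ⟨r⟩ := hG.connected.nonempty
  have hA : ∀ v ∈ (Finset.univ : Finset V), Relation.ReflTransGen
      (fun x y => G.Adj x y ∧ x ∈ (Finset.univ : Finset V) ∧ y ∈ (Finset.univ : Finset V)) r v := by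
    intro v _
    have h := hG.connected.preconnected r v
    rw [SimpleGraph.reachable_iff_reflTransGen] at h
    induction h with
    | refl => exact Relation.ReflTransGen.refl
    | tail _ h2 ih => exact (ih (Finset.mem_univ _)).tail ⟨h2, Finset.mem_univ _, Finset.mem_univ _⟩
  obtain ⟨p, hp, hp'⟩ := has_type G hG.isAcyclic Finset.univ r (Finset.mem_univ r) hA
  have key : ∃ a ∈ p, ∀ U : Finset V, St G U r a.1 → -a.2 ≤ if Good G U r then (5 : ℤ) else 0 := by
    simp only [P, List.mem_cons, List.not_mem_nil, or_false] at hp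
    rcases hp with rfl | rfl | rfl | rfl | rfl | rfl | rfl
    · refine ⟨(S.i0, -4), by simp, fun U hU => ?_⟩
      rw [if_pos (show Good G U r from Or.inr hU)]
      norm_num
    · refine ⟨(S.i0, -3), by simp, fun U hU => ?_⟩
      rw [if_pos (show Good G U r from Or.inr hU)]
      norm_num
    · refine ⟨(S.o1, -2), by simp, fun U hU => ?_⟩
      rw [if_pos (show Good G U r from Or.inl hU)]
      norm_num
    · refine ⟨(S.i0, -2), by simp, fun U hU => ?_⟩
      rw [if_pos (show Good G U r from Or.inr hU)]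
      norm_num
    · refine ⟨(S.o1, -1), by simp, fun U hU => ?_⟩
      rw [if_pos (show Good G U r from Or.inl hU)]
      norm_num
    · refine ⟨(S.o0, 0), by simp, fun U hU => ?_⟩
      split_ifs <;> norm_num
    · refine ⟨(S.o2, 0), by simp, fun U hU => ?_⟩
      split_ifs <;> norm_num
  obtain ⟨a, ha, ha'⟩ := key
  obtain ⟨U, -, hs, hx⟩ := hp' a ha
  refine ⟨U, ?_⟩
  have h1 := ha' U hs
  have h2 : (Finset.univ.filter fun w => Good G U w).card =
      ((Finset.univ.erase r).filter fun w => Good G U w).card + if Good G U r then 1 else 0 := by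
    have h3 : (Finset.univ.filter fun w => Good G U w) =
        ((Finset.univ.erase r).filter fun w => Good G U w) ∪
          (({r} : Finset V).filter fun w => Good G U w) := by
      ext w
      simp only [Finset.mem_filter, Finset.mem_univ, true_and, Finset.mem_union, Finset.mem_erase,
        Finset.mem_singleton, and_true]
      by_cases hw : w = r <;> simp [hw]
    rw [h3, Finset.card_union_of_disjoint, Finset.filter_singleton]
    · split_ifs <;> simp
    · rw [Finset.disjoint_left]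
      intro w h4 h5
      simp only [Finset.mem_filter, Finset.mem_erase, Finset.mem_singleton] at h4 h5
      exact h4.1.1 h5.1
  rw [h2]
  rw [Finset.card_univ] at hx
  have h3 : (4 * (Fintype.card V : ℤ)) ≤
      5 * ((((Finset.univ.erase r).filter fun w => Good G U w).card : ℤ) +
        if Good G U r then 1 else 0) := by
    split_ifs at h1 ⊢ <;> linarith
  split_ifs at h3 ⊢ <;> exact_mod_cast h3

end dp

/-! ### From finsets to the definition -/

open Classical in
lemma priv_coe [Fintype V] (G : SimpleGraph V) (U : Finset V) :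
    priv G (U : Set V) = (Finset.univ.filter fun w => Good G U w).card := by
  have hc : ∀ w, {u ∈ (U : Set V) | G.Adj w u}.ncard = cnt G U w := by
    intro w
    unfold cnt
    rw [← Set.ncard_coe_finset]
    congr 1
    ext u
    simp
  have he : ∀ w, ({u ∈ (U : Set V) | G.Adj w u} = ∅ ↔ cnt G U w = 0) := by
    intro w
    rw [← hc w, Set.ncard_eq_zero]
  unfold priv
  have h1 : {w | w ∉ (U : Set V) ∧ {u ∈ (U : Set V) | G.Adj w u}.ncard = 1} =
      ((Finset.univ.filter fun w => w ∉ U ∧ cnt G U w = 1 : Finset V) : Set V) := by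
    ext w
    rw [Finset.mem_coe, Finset.mem_filter]
    change (w ∉ (U : Set V) ∧ {u ∈ (U : Set V) | G.Adj w u}.ncard = 1) ↔ _
    rw [hc, Finset.mem_coe]
    simp
  have h2 : {w | w ∈ (U : Set V) ∧ {u ∈ (U : Set V) | G.Adj w u} = ∅} =
      ((Finset.univ.filter fun w => w ∈ U ∧ cnt G U w = 0 : Finset V) : Set V) := by
    ext w
    rw [Finset.mem_coe, Finset.mem_filter]
    change (w ∈ (U : Set V) ∧ {u ∈ (U : Set V) | G.Adj w u} = ∅) ↔ _
    rw [he, Finset.mem_coe]
    simp
  rw [h1, h2, Set.ncard_coe_finset, Set.ncard_coe_finset, ← Finset.card_union_of_disjoint]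
  · congr 1
    ext w
    simp only [Finset.mem_union, Finset.mem_filter, Finset.mem_univ, true_and, Good]
  · rw [Finset.disjoint_left]
    intro w h3 h4
    exact (Finset.mem_filter.1 h3).2.1 (Finset.mem_filter.1 h4).2.1

lemma bddAbove_priv [Fintype V] (G : SimpleGraph V) : BddAbove (Set.range (priv G)) := by
  refine ⟨Nat.card V + Nat.card V, ?_⟩
  rintro _ ⟨U, rfl⟩
  unfold priv
  exact Nat.add_le_add (Set.ncard_le_card _) (Set.ncard_le_card _)

/-- the lower bound `ESPN(T) ≥ 4 n(T) / 5` -/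
theorem lower_espn [Fintype V] (G : SimpleGraph V) (hG : G.IsTree) :
    4 * Fintype.card V ≤ 5 * ESPN G := by
  classical
  obtain ⟨U, hU⟩ := lower G hG
  refine hU.trans (Nat.mul_le_mul_left 5 ?_)
  rw [← priv_coe]
  exact le_csSup (bddAbove_priv G) ⟨_, rfl⟩

/-! ### The tree with five vertices -/

/-- the spider with centre `0`, two leaves `1`, `2` and the path `0 - 3 - 4` -/
def T5 : SimpleGraph (Fin 5) :=
  SimpleGraph.fromRel fun x y => (x = 0 ∧ (y = 1 ∨ y = 2 ∨ y = 3)) ∨ (x = 3 ∧ y = 4)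

instance : DecidableRel T5.Adj := fun x y => by
  unfold T5 SimpleGraph.fromRel
  infer_instance

theorem T5_tree : T5.IsTree := by
  rw [SimpleGraph.isTree_iff_connected_and_card]
  constructor
  · have : Nonempty (Fin 5) := ⟨0⟩
    refine ⟨fun u v => ?_⟩
    have h : ∀ w, T5.Reachable 0 w := by
      intro w
      have h1 : T5.Reachable 0 1 := SimpleGraph.Adj.reachable (by decide)
      have h2 : T5.Reachable 0 2 := SimpleGraph.Adj.reachable (by decide)
      have h3 : T5.Reachable 0 3 := SimpleGraph.Adj.reachable (by decide)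
      have h4 : T5.Reachable 3 4 := SimpleGraph.Adj.reachable (by decide)
      fin_cases w
      · exact SimpleGraph.Reachable.refl _
      · exact h1
      · exact h2
      · exact h3
      · exact h3.trans h4
    exact (h u).symm.trans (h v)
  · rw [Nat.card_eq_fintype_card, Nat.card_eq_fintype_card, Fintype.card_fin,
      ← SimpleGraph.edgeFinset_card]
    decide

theorem T5_le (U : Finset (Fin 5)) : (Finset.univ.filter fun w =>
    (w ∉ U ∧ (U.filter fun u => T5.Adj w u).card = 1) ∨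
      (w ∈ U ∧ (U.filter fun u => T5.Adj w u).card = 0)).card ≤ 4 := by
  revert U
  decide

theorem T5_espn : ESPN T5 = 4 := by
  classical
  apply le_antisymm
  · refine csSup_le (Set.range_nonempty _) ?_
    rintro _ ⟨U, rfl⟩
    obtain ⟨W, rfl⟩ : ∃ W : Finset (Fin 5), (W : Set (Fin 5)) = U :=
      ⟨(Set.toFinite U).toFinset, Set.Finite.coe_toFinset _⟩
    rw [priv_coe]
    refine le_trans (le_of_eq ?_) (T5_le W)
    congr 1
    ext w
    simp only [Finset.mem_filter, Finset.mem_univ, true_and, Good, cnt]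
    have : ∀ w, (W.filter fun u => T5.Adj w u).card =
        (@Finset.filter _ (fun u => T5.Adj w u) (fun _ => Classical.propDecidable _) W).card := by
      intro w
      congr!
    rw [this]
  · have := lower_espn T5 T5_tree
    simp only [Fintype.card_fin] at this
    omega

/-- **MP_0d27c8_co.** The infimum of `ESPN(T)/n(T)` over all finite trees `T` is a minimum, and it
is equal to `4/5`. -/
theorem result : IsLeast {x : ℝ | ∃ (n : ℕ) (T : SimpleGraph (Fin n)), T.IsTree ∧
    x = (ESPN T : ℝ) / n} (4 / 5) := by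
  constructor
  · refine ⟨5, T5, T5_tree, ?_⟩
    rw [T5_espn]
    norm_num
  · rintro _ ⟨n, T, hT, rfl⟩
    have h := lower_espn T hT
    rw [Fintype.card_fin] at h
    have hn : 0 < n := by
      obtain ⟨r⟩ := hT.connected.nonempty
      exact r.pos
    have hn' : (0 : ℝ) < n := by exact_mod_cast hn
    rw [le_div_iff₀ hn']
    have h' : (4 : ℝ) * n ≤ 5 * ESPN T := by exact_mod_cast h
    linarith

end Pool.Agent.Results.MP_0d27c8_co.FourFifths
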